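import Pool.Agent.H248.HB.Behrend

/-!
# Behrend sets in the additive group of a finite field
-/

set_option autoImplicit false

namespace Pool.Agent.H248.HB

theorem exists_AK (r m : ℕ) (hr : 1 ≤ r) (hm : 1 ≤ m) (δ : ℝ) (hδ : 0 < δ) (hδ1 : δ ≤ 1) :
    ∃ c : ℝ, 0 < c ∧ ∀ p : ℕ, p.Prime → r < p → ∀ (K : Type) [Field K] [Fintype K] [Algebra (ZMod p) K],
      Fintype.card K = p ^ m →
      ∃ A : Finset K, c * ((p : ℝ) ^ m) ^ (1 - δ) ≤ A.card ∧
        ∀ (y : Fin r → K) (y₀ : K), (∀ j, y j ∈ A) → y₀ ∈ A → ∑ j, y j = (r : K) * y₀ →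
          ∀ j, y j = y₀ := by
  obtain ⟨c, hc, h⟩ := exists_convexFree r hr δ hδ
  have hr0 : (0 : ℝ) < r := by exact_mod_cast (show 0 < r by omega)
  refine ⟨(c / (2 * r : ℝ) ^ (1 - δ)) ^ m, by positivity, ?_⟩
  intro p hp hrp K _ _ _ hK
  classical
  have : Fact p.Prime := ⟨hp⟩
  have hN : 1 ≤ p / r := (Nat.one_le_div_iff (by omega)).2 hrp.le
  obtain ⟨A, hAN, hAc, hA⟩ := h (p / r) hN
  have hrN : r * (p / r) ≤ p := Nat.mul_div_le p r
  have hfr : Module.finrank (ZMod p) K = m := by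
    have h1 := Module.card_eq_pow_finrank (K := ZMod p) (V := K)
    rw [ZMod.card, hK] at h1
    exact (Nat.pow_right_injective hp.two_le h1).symm
  let b := Module.finBasisOfFinrankEq (ZMod p) K hfr
  let φ : (Fin m → ℕ) → K := fun v => b.equivFun.symm (fun i => (v i : ZMod p))
  have hcast : ∀ x y : ℕ, x < p → y < p → ((x : ℕ) : ZMod p) = (y : ZMod p) → x = y := by
    intro x y hx hy hxy
    rw [ZMod.natCast_eq_natCast_iff'] at hxy
    rwa [Nat.mod_eq_of_lt hx, Nat.mod_eq_of_lt hy] at hxy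
  have hlt : ∀ a ∈ A, r * a < p := by
    intro a ha
    exact lt_of_lt_of_le (Nat.mul_lt_mul_of_pos_left (hAN a ha) (by omega)) hrN
  have hlt1 : ∀ a ∈ A, a < p := fun a ha =>
    lt_of_le_of_lt (Nat.le_mul_of_pos_left a (by omega)) (hlt a ha)
  have hinj : Set.InjOn φ (Fintype.piFinset fun _ : Fin m => A : Finset (Fin m → ℕ)) := by
    intro v hv w hw hvw
    have h1 := b.equivFun.symm.injective hvw
    funext i
    have h2 := congrFun h1 i
    exact hcast _ _ (hlt1 _ (Fintype.mem_piFinset.1 hv i)) (hlt1 _ (Fintype.mem_piFinset.1 hw i)) h2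
  refine ⟨(Fintype.piFinset fun _ : Fin m => A).image φ, ?_, ?_⟩
  · rw [Finset.card_image_of_injOn hinj, Fintype.card_piFinset, Finset.prod_const,
      Finset.card_univ, Fintype.card_fin, Nat.cast_pow]
    have hp0 : (0 : ℝ) ≤ p := Nat.cast_nonneg p
    have h1 : ((p : ℝ) ^ m) ^ (1 - δ) = ((p : ℝ) ^ (1 - δ)) ^ m := by
      rw [← Real.rpow_natCast, ← Real.rpow_natCast, ← Real.rpow_mul hp0, ← Real.rpow_mul hp0,
        mul_comm]
    rw [h1, ← mul_pow]
    refine pow_le_pow_left₀ (by positivity) ?_ m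
    refine le_trans ?_ hAc
    have h2 : (p : ℝ) ≤ 2 * r * ((p / r : ℕ) : ℝ) := by
      have h3 : p ≤ 2 * r * (p / r) := by
        have h4 := Nat.lt_mul_div_succ p (show 0 < r by omega)
        nlinarith
      exact_mod_cast h3
    have h5 : (p : ℝ) ^ (1 - δ) ≤ (2 * r : ℝ) ^ (1 - δ) * ((p / r : ℕ) : ℝ) ^ (1 - δ) := by
      rw [← Real.mul_rpow (by positivity) (Nat.cast_nonneg _)]
      exact Real.rpow_le_rpow hp0 h2 (by linarith)
    have h6 : (0 : ℝ) < (2 * r : ℝ) ^ (1 - δ) := by positivity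
    calc c / (2 * r : ℝ) ^ (1 - δ) * (p : ℝ) ^ (1 - δ)
        ≤ c / (2 * r : ℝ) ^ (1 - δ) *
          ((2 * r : ℝ) ^ (1 - δ) * ((p / r : ℕ) : ℝ) ^ (1 - δ)) :=
          mul_le_mul_of_nonneg_left h5 (by positivity)
      _ = c * ((p / r : ℕ) : ℝ) ^ (1 - δ) := by field_simp
  · intro y y₀ hy hy₀ hsum
    have hy' : ∀ j, ∃ v ∈ Fintype.piFinset (fun _ : Fin m => A), φ v = y j := fun j =>
      Finset.mem_image.1 (hy j)
    choose v hv hvy using hy'
    obtain ⟨v₀, hv₀, hvy₀⟩ := Finset.mem_image.1 hy₀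
    have hb : ∀ w : Fin m → ℕ, b.equivFun (φ w) = fun i => (w i : ZMod p) := fun w =>
      b.equivFun.apply_symm_apply _
    have hcoord : ∀ i, ∑ j, v j i = r * v₀ i := by
      intro i
      have h1 : b.equivFun (∑ j, y j) i = b.equivFun ((r : K) * y₀) i := by rw [hsum]
      rw [← nsmul_eq_mul, map_sum, map_nsmul, Finset.sum_apply, Pi.smul_apply, ← hvy₀, hb] at h1
      have h2 : ∀ j, b.equivFun (y j) i = (v j i : ZMod p) := fun j => by rw [← hvy j, hb]
      simp only [h2, nsmul_eq_mul] at h1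
      refine hcast _ _ ?_ (hlt _ (Fintype.mem_piFinset.1 hv₀ i)) ?_
      · calc ∑ j, v j i ≤ ∑ _j : Fin r, (p / r - 1) := Finset.sum_le_sum fun j _ => by
              have := hAN _ (Fintype.mem_piFinset.1 (hv j) i)
              omega
          _ = r * (p / r - 1) := by rw [Finset.sum_const, Finset.card_univ, Fintype.card_fin,
                smul_eq_mul]
          _ < r * (p / r) := Nat.mul_lt_mul_of_pos_left (by omega) (by omega)
          _ ≤ p := hrN
      · rw [Nat.cast_sum, Nat.cast_mul]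
        exact h1
    intro j
    have h3 : v j = v₀ := by
      funext i
      exact hA (fun j => v j i) (v₀ i) (fun j => Fintype.mem_piFinset.1 (hv j) i)
        (Fintype.mem_piFinset.1 hv₀ i) (hcoord i) j
    rw [← hvy j, ← hvy₀, h3]

end Pool.Agent.H248.HB
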