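import Pool.Agent.H248.HG.Defs
import Pool.Agent.H248.HG.Classes

/-!
# From the classes to the hypergraph
-/

set_option autoImplicit false

namespace Pool.Agent.H248.HB

open Pool.Agent.H248.HG

theorem assemble {r n s t bound : ℕ} (σ : Fin r → ℕ) (hs : s = ∏ i, σ i) (hσ : 2 ≤ s) (ht : bound < t)
    {W : Type} [Fintype W] [DecidableEq W] (E : Finset (Fin (r + 1) → W))
    (hsz : (r + 1) * Fintype.card W ≤ n)
    (hfree : ∀ (i₀ : Fin (r + 1)) (A : Fin (r + 1) → Finset W),
        (∀ b : Fin (r + 1) → W, (∀ i, b i ∈ A i) → b ∈ E) →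
        ∏ i ∈ Finset.univ.erase i₀, (A i).card = s - 1 + 1 → (A i₀).card ≤ bound) :
    ∃ H : Finset (Finset (Fin n)), (∀ e ∈ H, e.card = r + 1) ∧
      ¬ HasCopy H (Fin.snoc (α := fun _ => ℕ) σ t : Fin (r + 1) → ℕ) ∧ H.card = E.card := by
  classical
  have hcard : Fintype.card (Fin (r + 1) × W) ≤ Fintype.card (Fin n) := by
    rw [Fintype.card_prod, Fintype.card_fin, Fintype.card_fin]
    exact hsz
  obtain ⟨emb⟩ := Function.Embedding.nonempty_of_card_le hcard
  have hinj : ∀ v : Fin (r + 1) → W, Function.Injective fun i => emb (i, v i) := by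
    intro v i j hij
    have h1 := emb.injective hij
    exact (Prod.mk.injEq _ _ _ _ ▸ h1).1
  have himg : Function.Injective fun v : Fin (r + 1) → W =>
      (Finset.univ.image fun i => emb (i, v i) : Finset (Fin n)) := by
    intro v w hvw
    funext i
    have h1 : emb (i, v i) ∈ (Finset.univ.image fun i => emb (i, v i) : Finset (Fin n)) :=
      Finset.mem_image_of_mem _ (Finset.mem_univ i)
    have h2 : (Finset.univ.image fun i => emb (i, v i) : Finset (Fin n)) =
      Finset.univ.image fun i => emb (i, w i) := hvw
    rw [h2] at h1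
    obtain ⟨j, -, hj⟩ := Finset.mem_image.1 h1
    have h3 := emb.injective hj
    have h4 : j = i := congrArg Prod.fst h3
    have h5 : w j = v i := congrArg Prod.snd h3
    rw [← h5, h4]
  refine ⟨E.image fun v => (Finset.univ.image fun i => emb (i, v i) : Finset (Fin n)), ?_, ?_, ?_⟩
  · intro e he
    obtain ⟨v, -, rfl⟩ := Finset.mem_image.1 he
    rw [Finset.card_image_of_injective _ (hinj v), Finset.card_univ, Fintype.card_fin]
  · rintro ⟨A, hA, -, hH⟩
    have ht0 : 0 < t := by omega
    have hσ0 : ∀ j, 0 < σ j := by
      intro j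
      refine Nat.pos_of_ne_zero fun h0 => ?_
      have h1 : ∏ i, σ i = 0 := Finset.prod_eq_zero (Finset.mem_univ j) h0
      omega
    have hlast : (A (Fin.last r)).card = t := by
      rw [hA, Fin.snoc_last]
    have hcs : ∀ j : Fin r, (A (Fin.castSucc j)).card = σ j := by
      intro j
      rw [hA, Fin.snoc_castSucc]
    have hne : ∀ i, (A i).Nonempty := by
      intro i
      rw [← Finset.card_pos]
      refine Fin.lastCases ?_ (fun j => ?_) i
      · rw [hlast]
        exact ht0
      · rw [hcs]
        exact hσ0 j
    obtain ⟨π, B, hAB, hB⟩ := copy_classes emb {v | v ∈ E} A hne (by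
      intro a ha
      obtain ⟨v, hv, hv'⟩ := Finset.mem_image.1 (hH a ha)
      exact ⟨v, hv, hv'.symm⟩)
    have hcB : ∀ i, (B i).card = (A i).card := by
      intro i
      rw [hAB i, Finset.card_image_of_injective]
      intro w w' hww
      have h1 := emb.injective hww
      exact congrArg Prod.snd h1
    have hprod : ∏ i ∈ Finset.univ.erase (π (Fin.last r)), (B (π.symm i)).card = s - 1 + 1 := by
      have h1 : ∏ i ∈ Finset.univ.erase (π (Fin.last r)), (B (π.symm i)).card =
          ∏ k ∈ Finset.univ.erase (Fin.last r), (B k).card := by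
        refine Finset.prod_equiv π.symm ?_ ?_
        · intro i
          simp [Equiv.symm_apply_eq]
        · intro i _
          rfl
      have h2 := Finset.mul_prod_erase Finset.univ (fun k => (B k).card) (Finset.mem_univ (Fin.last r))
      have h3 := Fin.prod_univ_castSucc (fun k => (B k).card)
      have h4 : ∏ j : Fin r, (B (Fin.castSucc j)).card = s := by
        rw [hs]
        exact Finset.prod_congr rfl fun j _ => by rw [hcB, hcs]
      rw [h1]
      rw [h3, h4] at h2
      have h5 : (B (Fin.last r)).card = t := by rw [hcB, hlast]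
      simp only [h5] at h2
      rw [mul_comm s t] at h2
      have h6 := Nat.eq_of_mul_eq_mul_left ht0 h2
      rw [h6]
      omega
    have hfin := hfree (π (Fin.last r)) (fun j => B (π.symm j)) (by
      intro b hb
      have h1 := hB (fun i => b (π i)) (fun i => by
        have h2 := hb (π i)
        rwa [Equiv.symm_apply_apply] at h2)
      have h3 : (fun j => (fun i => b (π i)) (π.symm j)) = b := by
        funext j
        simp
      rw [h3] at h1
      exact h1) hprod
    have h7 : (B (π.symm (π (Fin.last r)))).card = t := by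
      rw [Equiv.symm_apply_apply, hcB, hlast]
    have h8 : (B (π.symm (π (Fin.last r)))).card ≤ bound := hfin
    omega
  · rw [Finset.card_image_of_injective _ himg]

end Pool.Agent.H248.HB
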