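import Mathlib

/-!
# Behrend sets in fixed dimension
-/

set_option autoImplicit false

namespace Pool.Agent.H248.HB

theorem sphere_rigid {r k : ℕ} (ρ : ℕ) (x : Fin r → Fin k → ℕ) (x₀ : Fin k → ℕ)
    (hx : ∀ j, ∑ i, x j i ^ 2 = ρ) (hx₀ : ∑ i, x₀ i ^ 2 = ρ) (hs : ∀ i, ∑ j, x j i = r * x₀ i) :
    ∀ j, x j = x₀ := by
  have h2 : (∑ i, (x₀ i : ℤ) ^ 2) = ρ := by exact_mod_cast hx₀
  have e : ∀ j, ∑ i, ((x j i : ℤ) - x₀ i) ^ 2 = 2 * ρ - 2 * ∑ i, (x₀ i : ℤ) * x j i := by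
    intro j
    have h1 : (∑ i, (x j i : ℤ) ^ 2) = ρ := by exact_mod_cast hx j
    have h3 : ∑ i, ((x j i : ℤ) - x₀ i) ^ 2 =
        ∑ i, (x j i : ℤ) ^ 2 + ∑ i, (x₀ i : ℤ) ^ 2 - 2 * ∑ i, (x₀ i : ℤ) * x j i := by
      rw [Finset.mul_sum, ← Finset.sum_add_distrib, ← Finset.sum_sub_distrib]
      exact Finset.sum_congr rfl fun i _ => by ring
    rw [h3, h1, h2]
    ring
  have h4 : ∑ j, ∑ i, (x₀ i : ℤ) * x j i = r * ρ := by
    rw [Finset.sum_comm, ← h2, Finset.mul_sum]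
    refine Finset.sum_congr rfl fun i _ => ?_
    have h5 : (∑ j, (x j i : ℤ)) = r * x₀ i := by exact_mod_cast hs i
    rw [← Finset.mul_sum, h5]
    ring
  have h0 : ∑ j, ∑ i, ((x j i : ℤ) - x₀ i) ^ 2 = 0 := by
    rw [Finset.sum_congr rfl fun j _ => e j, Finset.sum_sub_distrib, Finset.sum_const,
      Finset.card_univ, Fintype.card_fin, nsmul_eq_mul, ← Finset.mul_sum, h4]
    ring
  intro j
  have h6 : ∑ i, ((x j i : ℤ) - x₀ i) ^ 2 = 0 :=
    (Finset.sum_eq_zero_iff_of_nonneg fun j _ => Finset.sum_nonneg fun i _ => sq_nonneg _).mp h0 j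
      (Finset.mem_univ j)
  funext i
  have h7 : ((x j i : ℤ) - x₀ i) ^ 2 = 0 :=
    (Finset.sum_eq_zero_iff_of_nonneg fun i _ => sq_nonneg _).mp h6 i (Finset.mem_univ i)
  have h8 : (x j i : ℤ) - x₀ i = 0 := by
    exact pow_eq_zero_iff (two_ne_zero) |>.mp h7
  have h9 : (x j i : ℤ) = x₀ i := by linarith
  exact_mod_cast h9

theorem map_lt (k e : ℕ) (x : Fin k → ℕ) (hx : ∀ i, x i ≤ e) :
    Behrend.map (e + 1) x < (e + 1) ^ k := by
  have h1 : Behrend.map (e + 1) x = ∑ i : Fin k, x i * (e + 1) ^ (i : ℕ) := rfl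
  have h2 : ∑ i : Fin k, x i * (e + 1) ^ (i : ℕ) ≤ (∑ i ∈ Finset.range k, (e + 1) ^ i) * e := by
    rw [Finset.sum_mul, ← Fin.sum_univ_eq_sum_range (fun i => (e + 1) ^ i * e) k]
    refine Finset.sum_le_sum fun i _ => ?_
    rw [mul_comm]
    exact Nat.mul_le_mul_left _ (hx i)
  have h3 := geom_sum_mul_add e k
  rw [h1]
  omega

theorem free (r k d ρ : ℕ) (y : Fin r → ℕ) (y₀ : ℕ)
    (hy : ∀ j, y j ∈ (Behrend.sphere k d ρ).image (Behrend.map (r * d + 1)))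
    (hy₀ : y₀ ∈ (Behrend.sphere k d ρ).image (Behrend.map (r * d + 1)))
    (hs : ∑ j, y j = r * y₀) : ∀ j, y j = y₀ := by
  have h1 : ∀ j, ∃ x ∈ Behrend.sphere k d ρ, Behrend.map (r * d + 1) x = y j := fun j =>
    Finset.mem_image.mp (hy j)
  choose x hx hxy using h1
  obtain ⟨x₀, hx₀, hxy₀⟩ := Finset.mem_image.mp hy₀
  have hsp : ∀ z ∈ Behrend.sphere k d ρ, (∀ i, z i < d) ∧ ∑ i, z i ^ 2 = ρ := by
    intro z hz
    have hz' := Finset.mem_filter.mp hz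
    exact ⟨Behrend.mem_box.mp hz'.1, hz'.2⟩
  have hle : ∀ z : Fin k → ℕ, (∀ i, z i < d) → ∀ i, r * z i < r * d + 1 := by
    intro z hz i
    exact Nat.lt_succ_of_le (Nat.mul_le_mul_left r (hz i).le)
  have hmap : Behrend.map (r * d + 1) (∑ j, x j) = Behrend.map (r * d + 1) (r • x₀) := by
    rw [map_sum, map_nsmul, hxy₀, Finset.sum_congr rfl fun j _ => hxy j, hs, smul_eq_mul]
  have hinj : ∑ j, x j = r • x₀ := by
    refine Behrend.map_injOn ?_ ?_ hmap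
    · intro i
      rw [Finset.sum_apply]
      have h2 : ∑ j, x j i ≤ ∑ _j : Fin r, d := Finset.sum_le_sum fun j _ => ((hsp _ (hx j)).1 i).le
      rw [Finset.sum_const, Finset.card_univ, Fintype.card_fin, smul_eq_mul] at h2
      omega
    · intro i
      rw [Pi.smul_apply, smul_eq_mul]
      exact hle x₀ (hsp _ hx₀).1 i
  have hfin := sphere_rigid ρ x x₀ (fun j => (hsp _ (hx j)).2) (hsp _ hx₀).2 (fun i => by
    have := congrFun hinj i
    rw [Finset.sum_apply, Pi.smul_apply, smul_eq_mul] at this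
    exact this)
  intro j
  rw [← hxy j, hfin j, hxy₀]

theorem root (k N : ℕ) (hk : k ≠ 0) (hN : 1 ≤ N) : ∃ M : ℕ, 1 ≤ M ∧ M ^ k ≤ N ∧ N < (M + 1) ^ k := by
  have h0 : (0 : ℝ) ≤ N := Nat.cast_nonneg N
  have h1 : ((N : ℝ) ^ ((k : ℝ)⁻¹)) ^ k = N := Real.rpow_inv_natCast_pow h0 hk
  set y : ℝ := (N : ℝ) ^ ((k : ℝ)⁻¹) with hy
  have hy0 : 0 ≤ y := Real.rpow_nonneg h0 _
  have hy1 : 1 ≤ y := Real.one_le_rpow (by exact_mod_cast hN) (by positivity)
  refine ⟨⌊y⌋₊, Nat.floor_pos.mpr hy1, ?_, ?_⟩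
  · have h2 : (⌊y⌋₊ : ℝ) ^ k ≤ y ^ k := pow_le_pow_left₀ (Nat.cast_nonneg _) (Nat.floor_le hy0) k
    rw [h1] at h2
    exact_mod_cast h2
  · have h2 : y ^ k < ((⌊y⌋₊ : ℝ) + 1) ^ k := pow_lt_pow_left₀ (Nat.lt_floor_add_one y) hy0 hk
    rw [h1] at h2
    exact_mod_cast h2

theorem rp (n N X : ℕ) (δ : ℝ) (hN : 1 ≤ N) (hn : 2 / ((n : ℝ) + 2) ≤ δ) (hX : N ≤ X ^ (n + 2)) :
    (N : ℝ) ^ (1 - δ) ≤ (X : ℝ) ^ n := by
  have h1 : (N : ℝ) ^ (1 - δ) ≤ (N : ℝ) ^ ((n : ℝ) / ((n : ℝ) + 2)) := by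
    refine Real.rpow_le_rpow_of_exponent_le (by exact_mod_cast hN) ?_
    have : (n : ℝ) / ((n : ℝ) + 2) = 1 - 2 / ((n : ℝ) + 2) := by
      have : (n : ℝ) + 2 ≠ 0 := by positivity
      field_simp
      ring
    rw [this]
    linarith
  refine h1.trans ?_
  have h2 : (N : ℝ) ≤ (X : ℝ) ^ (n + 2) := by exact_mod_cast hX
  have h3 : (N : ℝ) ^ ((n : ℝ) / ((n : ℝ) + 2)) ≤ ((X : ℝ) ^ (n + 2)) ^ ((n : ℝ) / ((n : ℝ) + 2)) :=
    Real.rpow_le_rpow (Nat.cast_nonneg _) h2 (by positivity)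
  refine h3.trans (le_of_eq ?_)
  rw [← Real.rpow_natCast, ← Real.rpow_mul (Nat.cast_nonneg _), ← Real.rpow_natCast (X : ℝ) n]
  congr 1
  have : (n : ℝ) + 2 ≠ 0 := by positivity
  push_cast
  field_simp

theorem exists_convexFree (r : ℕ) (hr : 1 ≤ r) (δ : ℝ) (hδ : 0 < δ) :
    ∃ c : ℝ, 0 < c ∧ ∀ N : ℕ, 1 ≤ N → ∃ A : Finset ℕ, (∀ a ∈ A, a < N) ∧
      c * (N : ℝ) ^ (1 - δ) ≤ A.card ∧
      ∀ (y : Fin r → ℕ) (y₀ : ℕ), (∀ j, y j ∈ A) → y₀ ∈ A → ∑ j, y j = r * y₀ → ∀ j, y j = y₀ := by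
  obtain ⟨n, hn⟩ := exists_nat_ge (2 / δ)
  have hn' : 2 / ((n : ℝ) + 2) ≤ δ := by
    rw [div_le_iff₀ hδ] at hn
    rw [div_le_iff₀ (by positivity)]
    nlinarith
  have hden : (0 : ℝ) < ((n : ℝ) + 2) * (2 * r + 1) ^ n := by positivity
  refine ⟨1 / (((n : ℝ) + 2) * (2 * r + 1) ^ n), by positivity, fun N hN => ?_⟩
  obtain ⟨M, hM1, hM2, hM3⟩ := root (n + 2) N (by omega) hN
  by_cases hd : M - 1 < r
  · -- small N
    refine ⟨{0}, fun a ha => ?_, ?_, fun y y₀ hy hy₀ _ j => ?_⟩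
    · rw [Finset.mem_singleton] at ha
      omega
    · have hX : N ≤ (2 * r + 1) ^ (n + 2) := by
        refine hM3.le.trans (Nat.pow_le_pow_left (by omega) _)
      have h1 := rp n N (2 * r + 1) δ hN hn' hX
      push_cast at h1
      rw [Finset.card_singleton, Nat.cast_one, one_div, ← div_eq_inv_mul, div_le_one hden]
      refine h1.trans ?_
      have h2 : (0 : ℝ) < (2 * (r : ℝ) + 1) ^ n := by positivity
      nlinarith [Nat.cast_nonneg (α := ℝ) n]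
    · have h1 := Finset.mem_singleton.mp (hy j)
      have h2 := Finset.mem_singleton.mp hy₀
      rw [h1, h2]
  · push Not at hd
    set d := (M - 1) / r with hddef
    have hr0 : 0 < r := hr
    have hd1 : 1 ≤ d := (Nat.one_le_div_iff hr0).mpr hd
    have hd2 : r * d ≤ M - 1 := Nat.mul_div_le _ _
    have hd3 : M - 1 < r * (d + 1) := by
      rw [hddef]
      exact Nat.lt_mul_div_succ (M - 1) hr0
    obtain ⟨ρ, hρ⟩ := Behrend.exists_large_sphere (n + 2) d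
    have hDM : r * d + 1 ≤ M := by omega
    refine ⟨(Behrend.sphere (n + 2) d ρ).image (Behrend.map (r * d + 1)), fun a ha => ?_, ?_,
      fun y y₀ hy hy₀ hs => free r (n + 2) d ρ y y₀ hy hy₀ hs⟩
    · obtain ⟨x, hx, rfl⟩ := Finset.mem_image.mp ha
      have hx' := Behrend.mem_box.mp (Finset.mem_filter.mp hx).1
      refine (map_lt (n + 2) (r * d) x fun i => ?_).trans_le ?_
      · exact (hx' i).le.trans (Nat.le_mul_of_pos_left d hr0)
      · exact (Nat.pow_le_pow_left hDM _).trans hM2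
    · have hcard : ((Behrend.sphere (n + 2) d ρ).image (Behrend.map (r * d + 1))).card =
          (Behrend.sphere (n + 2) d ρ).card := by
        refine Finset.card_image_of_injOn fun x hx z hz h => ?_
        refine Behrend.map_injOn ?_ ?_ h
        · intro i
          have := Behrend.mem_box.mp (Finset.mem_filter.mp hx).1 i
          exact this.trans_le ((Nat.le_mul_of_pos_left d hr0).trans (Nat.le_succ _))
        · intro i
          have := Behrend.mem_box.mp (Finset.mem_filter.mp hz).1 i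
          exact this.trans_le ((Nat.le_mul_of_pos_left d hr0).trans (Nat.le_succ _))
      have hX : N ≤ ((2 * r + 1) * d) ^ (n + 2) := by
        refine hM3.le.trans (Nat.pow_le_pow_left ?_ _)
        have h1 : M + 1 ≤ r * (d + 1) + 1 := by omega
        have h2 : r * (d + 1) + 1 ≤ (2 * r + 1) * d := by nlinarith
        exact h1.trans h2
      have h1 := rp n N ((2 * r + 1) * d) δ hN hn' hX
      rw [hcard]
      refine le_trans ?_ hρ
      have hd0 : (0 : ℝ) < d := by exact_mod_cast hd1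
      have e1 : (((d ^ (n + 2) : ℕ) : ℝ) / (((n + 2) * d ^ 2 : ℕ) : ℝ)) = (d : ℝ) ^ n / ((n : ℝ) + 2) := by
        push_cast
        rw [pow_add]
        field_simp
      rw [e1, one_div, ← div_eq_inv_mul, div_le_div_iff₀ hden (by positivity)]
      push_cast at h1
      rw [mul_pow] at h1
      have h3 : (0 : ℝ) < (n : ℝ) + 2 := by positivity
      calc (N : ℝ) ^ (1 - δ) * ((n : ℝ) + 2) ≤ ((2 * (r : ℝ) + 1) ^ n * (d : ℝ) ^ n) * ((n : ℝ) + 2) :=
            mul_le_mul_of_nonneg_right h1 h3.le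
        _ = (d : ℝ) ^ n * (((n : ℝ) + 2) * (2 * (r : ℝ) + 1) ^ n) := by ring

end Pool.Agent.H248.HB
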