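import Pool.Agent.H248.ZP.Sol

/-!
# The norm hypergraph with Behrend sets

Vertices of each of the `r + 1` classes: pairs `(x, z)`, `x` in a field `K` with `p ^ m` elements, `z ∈ F_p^*`. Edges:
`N (x_0 + … + x_r) = z_0 ⋯ z_r`, and all the sums of `r` of the `x_i` belong to a set `A` in which
`y_1 + ⋯ + y_r = r y_0` has only trivial solutions.
-/

set_option autoImplicit false

namespace Pool.Agent.H248.HB

open Finset Polynomial Pool.Agent.H248.ZP

/-- the sum of the other first coordinates -/
def rest {K Z : Type} [Field K] {r : ℕ} (i : Fin (r + 1)) (v : Fin (r + 1) → K × Z) : K :=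
  ∑ k, (v (i.succAbove k)).1

theorem rest_update_self {K Z : Type} [Field K] {r : ℕ} (i : Fin (r + 1))
    (v : Fin (r + 1) → K × Z) (z : K × Z) : rest i (Function.update v i z) = rest i v := by
  unfold rest
  refine Finset.sum_congr rfl fun k _ => ?_
  rw [Function.update_of_ne (Fin.succAbove_ne i k)]

theorem rest_update {K Z : Type} [Field K] {r : ℕ} (i : Fin (r + 1)) (k : Fin r)
    (v : Fin (r + 1) → K × Z) (z : K × Z) :
    rest i (Function.update v (i.succAbove k) z) = rest i v + (z.1 - (v (i.succAbove k)).1) := by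
  classical
  unfold rest
  rw [← Finset.add_sum_erase _ _ (Finset.mem_univ k), Function.update_self,
    ← Finset.add_sum_erase (Finset.univ) (fun k => (v (i.succAbove k)).1) (Finset.mem_univ k)]
  have h : ∑ j ∈ univ.erase k, (Function.update v (i.succAbove k) z (i.succAbove j)).1 =
      ∑ j ∈ univ.erase k, (v (i.succAbove j)).1 := by
    refine Finset.sum_congr rfl fun j hj => ?_
    rw [Function.update_of_ne]
    intro h
    exact (Finset.ne_of_mem_erase hj) (Fin.succAbove_right_injective h)
  rw [h]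
  ring

/-- the box lemma -/
theorem box {K Z : Type} [Field K] [DecidableEq K] [CommGroup Z] [DecidableEq Z] {r m : ℕ}
    (hm : 1 ≤ m) (φ : K →+* K) (ι : Z →* K) (hι : Function.Injective ι)
    (S : Finset K) (hS : ∀ (y : Fin r → K) (y₀ : K), (∀ j, y j ∈ S) → y₀ ∈ S →
      ∑ j, y j = (r : K) * y₀ → ∀ j, y j = y₀)
    (E : Finset (Fin (r + 1) → K × Z))
    (hE : ∀ v ∈ E, ∏ j : Fin m, φ^[(j : ℕ)] (∑ i, (v i).1) = ι (∏ i, (v i).2) ∧
      ∀ i, rest i v ∈ S)
    (i₀ : Fin (r + 1)) (A : Fin (r + 1) → Finset (K × Z))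
    (hA : ∀ b : Fin (r + 1) → K × Z, (∀ i, b i ∈ A i) → b ∈ E)
    (hc : ∏ i ∈ univ.erase i₀, (A i).card = m + 1) :
    (A i₀).card ≤ m.factorial := by
  classical
  rcases Finset.eq_empty_or_nonempty (A i₀) with h0 | h0
  · rw [h0, Finset.card_empty]; exact Nat.zero_le _
  have hne : ∀ i, (A i).Nonempty := by
    intro i
    by_cases hi : i = i₀
    · rw [hi]; exact h0
    · rw [← Finset.card_pos, Nat.pos_iff_ne_zero]
      intro h1
      have h2 : ∏ i ∈ univ.erase i₀, (A i).card = 0 :=
        Finset.prod_eq_zero (Finset.mem_erase.2 ⟨hi, Finset.mem_univ _⟩) h1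
      omega
  choose b₀ hb₀ using hne
  have hupd : ∀ (b : Fin (r + 1) → K × Z) (j : Fin (r + 1)) (z : K × Z),
      (∀ i, i ≠ j → b i ∈ A i) → z ∈ A j → Function.update b j z ∈ E := by
    intro b j z hb hz
    refine hA _ fun i => ?_
    by_cases hi : i = j
    · subst hi; rw [Function.update_self]; exact hz
    · rw [Function.update_of_ne hi]; exact hb i hi
  have hsum : ∀ (b : Fin (r + 1) → K × Z) (j : Fin (r + 1)) (z : K × Z),
      ∑ i, (Function.update b j z i).1 = z.1 + rest j b := by
    intro b j z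
    rw [Fin.sum_univ_succAbove _ j, Function.update_self, ← rest_update_self j b z]
    rfl
  have hprod : ∀ (b : Fin (r + 1) → K × Z) (j : Fin (r + 1)) (z : K × Z),
      ∏ i, (Function.update b j z i).2 = z.2 * ∏ k, (b (j.succAbove k)).2 := by
    intro b j z
    rw [Fin.prod_univ_succAbove _ j, Function.update_self]
    congr 1
    refine Finset.prod_congr rfl fun k _ => ?_
    rw [Function.update_of_ne (Fin.succAbove_ne j k)]
  -- the first coordinates of the elements of a class are different
  have hinj : ∀ j, ∀ z ∈ A j, ∀ z' ∈ A j, z.1 = z'.1 → z = z' := by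
    intro j z hz z' hz' h1
    have h2 := (hE _ (hupd b₀ j z (fun i _ => hb₀ i) hz)).1
    have h3 := (hE _ (hupd b₀ j z' (fun i _ => hb₀ i) hz')).1
    rw [hsum, hprod] at h2 h3
    rw [h1, h3] at h2
    have h4 := hι h2
    exact Prod.ext h1 (mul_right_cancel h4).symm
  set T : Finset (Fin (r + 1) → K × Z) :=
    Fintype.piFinset fun i => if i = i₀ then {b₀ i₀} else A i with hT
  have hTmem : ∀ b ∈ T, b i₀ = b₀ i₀ ∧ ∀ i, i ≠ i₀ → b i ∈ A i := by
    intro b hb
    rw [hT, Fintype.mem_piFinset] at hb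
    refine ⟨?_, fun i hi => ?_⟩
    · have := hb i₀
      rw [if_pos rfl, Finset.mem_singleton] at this
      exact this
    · have := hb i
      rw [if_neg hi] at this
      exact this
  have hTc : T.card = m + 1 := by
    rw [hT, Fintype.card_piFinset, ← Finset.mul_prod_erase _ _ (Finset.mem_univ i₀), if_pos rfl,
      Finset.card_singleton, one_mul, ← hc]
    refine Finset.prod_congr rfl fun i hi => ?_
    rw [if_neg (Finset.ne_of_mem_erase hi)]
  let en : Fin (m + 1) ≃ T := (Finset.equivFinOfCardEq hTc).symm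
  have hTall : ∀ b ∈ T, ∀ i, b i ∈ A i := by
    intro b hb i
    by_cases hi : i = i₀
    · rw [hi, (hTmem b hb).1]; exact hb₀ i₀
    · exact (hTmem b hb).2 i hi
  -- different rows have different sums
  have hrest : ∀ b ∈ T, ∀ b' ∈ T, rest i₀ b = rest i₀ b' → b = b' := by
    intro b hb b' hb' hbb
    have h1 := hS (fun k => rest i₀ (Function.update b (i₀.succAbove k) (b' (i₀.succAbove k))))
      (rest i₀ b) (fun k => (hE _ (hupd b _ _ (fun i _ => hTall b hb i) (hTall b' hb' _))).2 i₀)
      ((hE _ (hA b (hTall b hb))).2 i₀) (by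
        have h2 : ∀ k, rest i₀ (Function.update b (i₀.succAbove k) (b' (i₀.succAbove k))) =
            rest i₀ b + ((b' (i₀.succAbove k)).1 - (b (i₀.succAbove k)).1) := fun k =>
          rest_update i₀ k b _
        rw [Finset.sum_congr rfl fun k _ => h2 k, Finset.sum_add_distrib, Finset.sum_sub_distrib,
          Finset.sum_const, Finset.card_univ, Fintype.card_fin, nsmul_eq_mul]
        have h3 : ∑ k, (b' (i₀.succAbove k)).1 = ∑ k, (b (i₀.succAbove k)).1 := hbb.symm
        rw [h3, sub_self, add_zero])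
    funext i
    by_cases hi : i = i₀
    · rw [hi, (hTmem b hb).1, (hTmem b' hb').1]
    · obtain ⟨k, rfl⟩ := Fin.exists_succAbove_eq hi
      have h4 := h1 k
      rw [rest_update] at h4
      have h5 : (b' (i₀.succAbove k)).1 - (b (i₀.succAbove k)).1 = 0 := by
        have h6 : rest i₀ b + ((b' (i₀.succAbove k)).1 - (b (i₀.succAbove k)).1) = rest i₀ b + 0 := by
          rw [h4, add_zero]
        exact add_left_cancel h6
      exact hinj _ _ (hTall b hb _) _ (hTall b' hb' _) (sub_eq_zero.1 h5).symm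
  let bb : K → K := fun s => if hs : ∃ z : K × Z, z ∈ A i₀ ∧ z.1 = s then ι hs.choose.2 else 0
  have hbb : ∀ z ∈ A i₀, bb z.1 = ι z.2 := by
    intro z hz
    have hs : ∃ z' : K × Z, z' ∈ A i₀ ∧ z'.1 = z.1 := ⟨z, hz, rfl⟩
    have hcc : hs.choose = z := hinj i₀ _ hs.choose_spec.1 z hz hs.choose_spec.2
    simp only [bb]
    rw [dif_pos hs, hcc]
  have hkey := sol_bound hm 1 le_rfl φ (fun i => X + C (rest i₀ (en i : Fin (r + 1) → K × Z)))
    (fun i => monic_X_add_C _) (fun i => natDegree_X_add_C _) (fun i j hij => ?_)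
    (fun i => ι (∏ k, ((en i : Fin (r + 1) → K × Z) (i₀.succAbove k)).2))
    bb ((A i₀).image Prod.fst) ?_
  · rw [one_pow, mul_one, Finset.card_image_of_injOn] at hkey
    · exact hkey
    · intro z hz z' hz' h1
      exact hinj i₀ z hz z' hz' h1
  · have hne : rest i₀ (en i : Fin (r + 1) → K × Z) ≠ rest i₀ (en j : Fin (r + 1) → K × Z) := by
      intro h
      exact hij (en.injective (Subtype.ext (hrest _ (en i).2 _ (en j).2 h)))
    have h1 := isCoprime_X_sub_C_of_isUnit_sub (R := K)
      (a := -rest i₀ (en i : Fin (r + 1) → K × Z)) (b := -rest i₀ (en j : Fin (r + 1) → K × Z))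
      (IsUnit.mk0 _ (by
        intro h
        apply hne
        linear_combination -h))
    simpa using h1
  · intro s hs i
    obtain ⟨z, hz, rfl⟩ := Finset.mem_image.1 hs
    have h1 := (hE _ (hupd (en i) i₀ z (hTmem _ (en i).2).2 hz)).1
    rw [hsum, hprod, map_mul] at h1
    rw [hbb z hz]
    have h2 : eval z.1 (X + C (rest i₀ (en i : Fin (r + 1) → K × Z))) =
        z.1 + rest i₀ (en i : Fin (r + 1) → K × Z) := by simp
    rw [h2, h1, mul_comm]

end Pool.Agent.H248.HB
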