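import Pool.Agent.H248.HB.Box

/-!
# Existence of the hypergraph
-/

set_option autoImplicit false

namespace Pool.Agent.H248.HB

open Finset Polynomial

theorem exists_V (r m p : ℕ) (hr : 1 ≤ r) (hm : 1 ≤ m) (hp : p.Prime) (hrp : r < p)
    (K : Type) [Field K] [Fintype K] [DecidableEq K] [Algebra (ZMod p) K]
    (hcard : Fintype.card K = p ^ m) (S : Finset K)
    (hS : ∀ (y : Fin r → K) (y₀ : K), (∀ j, y j ∈ S) → y₀ ∈ S →
      ∑ j, y j = (r : K) * y₀ → ∀ j, y j = y₀) :
    ∃ (W : Type) (_ : Fintype W) (_ : DecidableEq W) (E : Finset (Fin (r + 1) → W)),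
      Fintype.card W = p ^ m * (p - 1) ∧
      (2 ≤ S.card → S.card ^ (r + 1) * (p - 1) ^ r ≤ 2 * E.card) ∧
      ∀ (i₀ : Fin (r + 1)) (A : Fin (r + 1) → Finset W),
        (∀ b : Fin (r + 1) → W, (∀ i, b i ∈ A i) → b ∈ E) →
        ∏ i ∈ Finset.univ.erase i₀, (A i).card = m + 1 →
        (A i₀).card ≤ m.factorial := by
  classical
  have hpf : Fact p.Prime := ⟨hp⟩
  have hfin : Module.finrank (ZMod p) K = m := by
    have h1 : Fintype.card K = Fintype.card (ZMod p) ^ Module.finrank (ZMod p) K :=
      Module.card_eq_pow_finrank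
    rw [hcard, ZMod.card] at h1
    exact (Nat.pow_right_injective hp.two_le h1).symm
  have hchar : CharP K p := charP_of_injective_algebraMap (algebraMap (ZMod p) K).injective p
  set φ : K →+* K := frobenius K p with hφ
  let ι : (ZMod p)ˣ →* K := (algebraMap (ZMod p) K : ZMod p →* K).comp (Units.coeHom (ZMod p))
  have hιv : ∀ z : (ZMod p)ˣ, ι z = algebraMap (ZMod p) K z := fun z => rfl
  have hι : Function.Injective ι := by
    intro z z' h
    rw [hιv, hιv] at h
    exact Units.ext ((algebraMap (ZMod p) K).injective h)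
  have hN : ∀ x : K, ∏ j : Fin m, φ^[(j : ℕ)] x = algebraMap (ZMod p) K (Algebra.norm (ZMod p) x) := by
    intro x
    rw [FiniteField.algebraMap_norm_eq_prod_pow, hfin, Finset.prod_range]
    refine Finset.prod_congr rfl fun j _ => ?_
    rw [hφ, iterate_frobenius, Nat.card_zmod]
  have hr0 : (r : K) ≠ 0 := by
    intro h
    have h1 := (CharP.cast_eq_zero_iff K p r).1 h
    have h2 := Nat.le_of_dvd (by omega) h1
    omega
  set E : Finset (Fin (r + 1) → K × (ZMod p)ˣ) := Finset.univ.filter fun v =>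
    ∏ j : Fin m, φ^[(j : ℕ)] (∑ i, (v i).1) = ι (∏ i, (v i).2) ∧ ∀ i, rest i v ∈ S with hE
  refine ⟨K × (ZMod p)ˣ, inferInstance, inferInstance, E, ?_, ?_, ?_⟩
  · rw [Fintype.card_prod, hcard, ZMod.card_units]
  · intro hS2
    -- the vectors of the sums `w i` with nonzero total
    set Wt : Finset (Fin (r + 1) → K) :=
      (Fintype.piFinset fun _ : Fin (r + 1) => S).filter fun w => ∑ i, w i ≠ 0 with hWt
    have hcount : S.card ^ (r + 1) ≤ 2 * Wt.card := by
      have h1 : ((Fintype.piFinset fun _ : Fin (r + 1) => S).filter fun w => ∑ i, w i = 0).card ≤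
          S.card ^ r := by
        have h2 : (Fintype.piFinset fun _ : Fin r => S).card = S.card ^ r := by
          rw [Fintype.card_piFinset, Finset.prod_const, Finset.card_univ, Fintype.card_fin]
        rw [← h2]
        refine Finset.card_le_card_of_injOn (fun w k => w (Fin.castSucc k)) ?_ ?_
        · intro w hw
          have hw1 := (Finset.mem_filter.1 (Finset.mem_coe.1 hw)).1
          rw [Fintype.mem_piFinset] at hw1
          exact Finset.mem_coe.2 (Fintype.mem_piFinset.2 fun k => hw1 _)
        · intro w hw w' hw' h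
          have h3 := (Finset.mem_filter.1 (Finset.mem_coe.1 hw)).2
          have h4 := (Finset.mem_filter.1 (Finset.mem_coe.1 hw')).2
          rw [Fin.sum_univ_castSucc] at h3 h4
          have h5 : ∀ k : Fin r, w (Fin.castSucc k) = w' (Fin.castSucc k) := fun k => congrFun h k
          have h6 : w (Fin.last r) = w' (Fin.last r) := by
            have h7 : ∑ k : Fin r, w (Fin.castSucc k) = ∑ k : Fin r, w' (Fin.castSucc k) :=
              Finset.sum_congr rfl fun k _ => h5 k
            rw [h7] at h3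
            exact add_left_cancel (h3.trans h4.symm)
          funext i
          exact Fin.lastCases h6 h5 i
      have h2 : ((Fintype.piFinset fun _ : Fin (r + 1) => S).filter fun w => ∑ i, w i = 0).card +
          Wt.card = S.card ^ (r + 1) := by
        rw [hWt, Finset.card_filter_add_card_filter_not, Fintype.card_piFinset, Finset.prod_const,
          Finset.card_univ, Fintype.card_fin]
      have h3 : 2 * S.card ^ r ≤ S.card ^ (r + 1) := by
        rw [pow_succ, mul_comm]
        exact Nat.mul_le_mul_left _ hS2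
      omega
    -- the unit of the norm
    have hun : ∀ T : K, ∃ u : (ZMod p)ˣ, T ≠ 0 → (u : ZMod p) = Algebra.norm (ZMod p) T := by
      intro T
      by_cases hT : T = 0
      · exact ⟨1, fun h => absurd hT h⟩
      · have h1 : Algebra.norm (ZMod p) T ≠ 0 := Algebra.norm_ne_zero_iff.2 hT
        exact ⟨Units.mk0 _ h1, fun _ => rfl⟩
    choose un hun using hun
    let F : (Fin (r + 1) → K) × (Fin r → (ZMod p)ˣ) → (Fin (r + 1) → K × (ZMod p)ˣ) := fun q i =>
      ((∑ j, q.1 j) / r - q.1 i,
        (Fin.snoc (α := fun _ => (ZMod p)ˣ) q.2 (un ((∑ j, q.1 j) / r) * (∏ k, q.2 k)⁻¹) :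
          Fin (r + 1) → (ZMod p)ˣ) i)
    have hFs : ∀ q, ∑ i, (F q i).1 = (∑ j, q.1 j) / r := by
      intro q
      show ∑ i, ((∑ j, q.1 j) / r - q.1 i) = _
      rw [Finset.sum_sub_distrib, Finset.sum_const, Finset.card_univ, Fintype.card_fin, nsmul_eq_mul]
      push_cast
      field_simp
      ring
    have hFr : ∀ q i, rest i (F q) = q.1 i := by
      intro q i
      have h1 := hFs q
      rw [Fin.sum_univ_succAbove _ i] at h1
      have h2 : rest i (F q) = (∑ j, q.1 j) / r - (F q i).1 := by
        rw [← h1]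
        unfold rest
        ring
      rw [h2]
      show (∑ j, q.1 j) / r - ((∑ j, q.1 j) / r - q.1 i) = _
      ring
    have hFp : ∀ q, ∏ i, (F q i).2 = un ((∑ j, q.1 j) / r) := by
      intro q
      rw [Fin.prod_univ_castSucc]
      have h1 : ∀ k : Fin r, (F q (Fin.castSucc k)).2 = q.2 k := by
        intro k
        show (Fin.snoc (α := fun _ => (ZMod p)ˣ) q.2 _ : Fin (r + 1) → (ZMod p)ˣ) (Fin.castSucc k) = _
        rw [Fin.snoc_castSucc]
      have h2 : (F q (Fin.last r)).2 = un ((∑ j, q.1 j) / r) * (∏ k, q.2 k)⁻¹ := by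
        show (Fin.snoc (α := fun _ => (ZMod p)ˣ) q.2 _ : Fin (r + 1) → (ZMod p)ˣ) (Fin.last r) = _
        rw [Fin.snoc_last]
      rw [Finset.prod_congr rfl fun k _ => h1 k, h2, mul_comm, mul_assoc, inv_mul_cancel, mul_one]
    have hF : ∀ q ∈ Wt ×ˢ (Finset.univ : Finset (Fin r → (ZMod p)ˣ)), F q ∈ E := by
      intro q hq
      rw [Finset.mem_product] at hq
      obtain ⟨hq1, hq2⟩ := Finset.mem_filter.1 hq.1
      rw [Fintype.mem_piFinset] at hq1
      rw [hE, Finset.mem_filter]
      refine ⟨Finset.mem_univ _, ?_, fun i => by rw [hFr]; exact hq1 i⟩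
      rw [hN, hFs, hFp, hιv, hun]
      exact div_ne_zero hq2 hr0
    have hFi : Set.InjOn F (Wt ×ˢ (Finset.univ : Finset (Fin r → (ZMod p)ˣ)) : Finset _) := by
      rintro q - q' - h
      refine Prod.ext ?_ ?_
      · funext i
        rw [← hFr q i, ← hFr q' i, h]
      · funext k
        have h1 := congrArg (fun v : Fin (r + 1) → K × (ZMod p)ˣ => (v (Fin.castSucc k)).2) h
        simp only [F, Fin.snoc_castSucc] at h1
        exact h1
    have h4 := Finset.card_le_card_of_injOn F hF hFi
    rw [Finset.card_product, Finset.card_univ, Fintype.card_fun, Fintype.card_fin,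
      ZMod.card_units] at h4
    calc S.card ^ (r + 1) * (p - 1) ^ r ≤ 2 * Wt.card * (p - 1) ^ r := Nat.mul_le_mul_right _ hcount
      _ = 2 * (Wt.card * (p - 1) ^ r) := by ring
      _ ≤ _ := Nat.mul_le_mul_left _ h4
  · intro i₀ A hA hc
    exact box hm φ ι hι S hS E (fun v hv => (Finset.mem_filter.1 hv).2) i₀ A hA hc

end Pool.Agent.H248.HB
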