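import Mathlib

/-!
# The choice of the prime
-/

set_option autoImplicit false

namespace Pool.Agent.H248.HB

theorem num_prime (r m : ℕ) (hr : 1 ≤ r) (hm : 1 ≤ m) (δ : ℝ) (hδ : 0 < δ) (hδ1 : δ ≤ 1 / 2) (c₀ : ℝ)
    (hc₀ : 0 < c₀) :
    ∃ c : ℝ, 0 < c ∧ ∃ n₀ : ℕ, ∀ n : ℕ, n₀ ≤ n →
      ∃ p : ℕ, p.Prime ∧ r < p ∧ (r + 1) * (p ^ m * (p - 1)) ≤ n ∧
        ∀ a M : ℕ, c₀ * ((p : ℝ) ^ m) ^ (1 - δ) ≤ a → (2 ≤ a → a ^ (r + 1) * (p - 1) ^ r ≤ 2 * M) →
          c * (n : ℝ) ^ ((r : ℝ) + 1 - 1 / ((m : ℝ) + 1) - ((r : ℝ) + 1) * δ) ≤ M := by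
  set e : ℝ := (r : ℝ) + 1 - 1 / ((m : ℝ) + 1) - ((r : ℝ) + 1) * δ with he
  have hr' : (1 : ℝ) ≤ r := by exact_mod_cast hr
  have hm' : (1 : ℝ) ≤ m := by exact_mod_cast hm
  have hm1 : (0 : ℝ) < (m : ℝ) + 1 := by linarith
  have he0 : 0 ≤ e := by
    have h1 : 1 / ((m : ℝ) + 1) ≤ 1 / 2 := by
      apply one_div_le_one_div_of_le (by norm_num)
      linarith
    have h2 : ((r : ℝ) + 1) * δ ≤ ((r : ℝ) + 1) * (1 / 2) :=
      mul_le_mul_of_nonneg_left hδ1 (by linarith)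
    rw [he]
    linarith
  set K : ℝ := (((r : ℝ) + 1) * 2 ^ (m + 1)) ^ e with hK
  have hK0 : 0 < K := Real.rpow_pos_of_pos (by positivity) _
  obtain ⟨T, hT⟩ := exists_nat_ge (max (max (r : ℝ) 2) (4 / c₀ ^ 2))
  have hTr : r ≤ T := by
    have : (r : ℝ) ≤ T := ((le_max_left _ _).trans (le_max_left _ _)).trans hT
    exact_mod_cast this
  have hT2 : 2 ≤ T := by
    have : (2 : ℝ) ≤ T := ((le_max_right _ _).trans (le_max_left _ _)).trans hT
    exact_mod_cast this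
  have hTc : 4 / c₀ ^ 2 ≤ T := (le_max_right _ _).trans hT
  refine ⟨c₀ ^ (r + 1) * (1 / 2) ^ r / 2 / K, by positivity, (r + 1) * (2 * T) ^ (m + 1), ?_⟩
  intro n hn
  have hex : ∃ Y : ℕ, n < (r + 1) * (2 * Y) ^ (m + 1) := by
    refine ⟨n + 1, ?_⟩
    calc n < 2 * (n + 1) := by omega
      _ = (2 * (n + 1)) ^ 1 := (pow_one _).symm
      _ ≤ (2 * (n + 1)) ^ (m + 1) := Nat.pow_le_pow_right (by omega) (by omega)
      _ ≤ (r + 1) * (2 * (n + 1)) ^ (m + 1) := Nat.le_mul_of_pos_left _ (by omega)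
  classical
  set Y := Nat.find hex with hYdef
  have hY : n < (r + 1) * (2 * Y) ^ (m + 1) := Nat.find_spec hex
  have hYmin : ∀ y, y < Y → (r + 1) * (2 * y) ^ (m + 1) ≤ n := fun y hy =>
    Nat.not_lt.1 (Nat.find_min hex hy)
  have hTY : T < Y := by
    by_contra hc
    have h1 : (r + 1) * (2 * Y) ^ (m + 1) ≤ (r + 1) * (2 * T) ^ (m + 1) :=
      Nat.mul_le_mul_left _ (Nat.pow_le_pow_left (by omega) _)
    omega
  obtain ⟨p, hp, hp1, hp2⟩ := Nat.exists_prime_lt_and_le_two_mul (Y - 1) (by omega)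
  have hYp : Y ≤ p := by omega
  refine ⟨p, hp, by omega, ?_, ?_⟩
  · calc (r + 1) * (p ^ m * (p - 1)) ≤ (r + 1) * (p ^ m * p) := by
          apply Nat.mul_le_mul_left
          apply Nat.mul_le_mul_left
          omega
      _ = (r + 1) * p ^ (m + 1) := by rw [pow_succ]
      _ ≤ (r + 1) * (2 * (Y - 1)) ^ (m + 1) :=
          Nat.mul_le_mul_left _ (Nat.pow_le_pow_left hp2 _)
      _ ≤ n := hYmin _ (by omega)
  · intro a M ha haM
    have hpT : (T : ℝ) ≤ p := by exact_mod_cast (by omega : T ≤ p)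
    have hx1 : (1 : ℝ) ≤ p := by exact_mod_cast (by omega : 1 ≤ p)
    have hx2 : (2 : ℝ) ≤ p := by exact_mod_cast (by omega : 2 ≤ p)
    have hx0 : (0 : ℝ) < p := by linarith
    -- the lower bound for `a`
    have hpow : ((p : ℝ) ^ m) ^ (1 - δ) = (p : ℝ) ^ ((m : ℝ) * (1 - δ)) := by
      rw [← Real.rpow_natCast, ← Real.rpow_mul hx0.le]
    have hexp : (1 : ℝ) / 2 ≤ (m : ℝ) * (1 - δ) := by nlinarith
    have hsq : 2 ≤ c₀ * (p : ℝ) ^ ((1 : ℝ) / 2) := by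
      have h1 : 4 / c₀ ^ 2 ≤ p := hTc.trans hpT
      have h2 : (2 / c₀) ≤ (p : ℝ) ^ ((1 : ℝ) / 2) := by
        rw [← Real.sqrt_eq_rpow]
        apply Real.le_sqrt_of_sq_le
        rw [div_pow]
        norm_num
        exact h1
      calc (2 : ℝ) = c₀ * (2 / c₀) := by field_simp
        _ ≤ c₀ * (p : ℝ) ^ ((1 : ℝ) / 2) := mul_le_mul_of_nonneg_left h2 hc₀.le
    have ha2 : (2 : ℝ) ≤ a := by
      refine hsq.trans (le_trans ?_ ha)
      rw [hpow]
      exact mul_le_mul_of_nonneg_left (Real.rpow_le_rpow_of_exponent_le hx1 hexp) hc₀.le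
    have ha2' : 2 ≤ a := by exact_mod_cast ha2
    have hM := haM ha2'
    have hM' : (a : ℝ) ^ (r + 1) * ((p : ℝ) - 1) ^ r ≤ 2 * M := by
      have h1 : ((a ^ (r + 1) * (p - 1) ^ r : ℕ) : ℝ) ≤ ((2 * M : ℕ) : ℝ) := by exact_mod_cast hM
      rw [Nat.cast_mul, Nat.cast_pow, Nat.cast_pow, Nat.cast_sub (by omega : 1 ≤ p),
        Nat.cast_mul] at h1
      simpa using h1
    -- lower bound for `M`
    have hF : c₀ ^ (r + 1) * (1 / 2) ^ r *
        (p : ℝ) ^ ((m : ℝ) * (1 - δ) * ((r : ℝ) + 1) + r) ≤ 2 * M := by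
      refine le_trans ?_ hM'
      have h1 : (c₀ * (p : ℝ) ^ ((m : ℝ) * (1 - δ))) ^ (r + 1) ≤ (a : ℝ) ^ (r + 1) := by
        apply pow_le_pow_left₀ (by positivity)
        rw [← hpow]
        exact ha
      have h2 : ((p : ℝ) * (1 / 2)) ^ r ≤ ((p : ℝ) - 1) ^ r := by
        apply pow_le_pow_left₀ (by positivity)
        linarith
      have h3 : c₀ ^ (r + 1) * (1 / 2) ^ r *
          (p : ℝ) ^ ((m : ℝ) * (1 - δ) * ((r : ℝ) + 1) + r) =
          (c₀ * (p : ℝ) ^ ((m : ℝ) * (1 - δ))) ^ (r + 1) * ((p : ℝ) * (1 / 2)) ^ r := by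
        rw [Real.rpow_add hx0, Real.rpow_natCast, mul_pow, mul_pow,
          Real.rpow_mul hx0.le ((m : ℝ) * (1 - δ)) ((r : ℝ) + 1)]
        have h4 : ((p : ℝ) ^ ((m : ℝ) * (1 - δ))) ^ ((r : ℝ) + 1) =
            ((p : ℝ) ^ ((m : ℝ) * (1 - δ))) ^ (r + 1) := by
          rw [← Real.rpow_natCast]
          push_cast
          rfl
        rw [h4]
        ring
      rw [h3]
      exact mul_le_mul h1 h2 (by positivity) (by positivity)
    -- upper bound for `n ^ e`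
    have hnr : (n : ℝ) ≤ (((r : ℝ) + 1) * 2 ^ (m + 1)) * (p : ℝ) ^ (m + 1) := by
      have h1 : n ≤ (r + 1) * (2 * p) ^ (m + 1) :=
        hY.le.trans (Nat.mul_le_mul_left _ (Nat.pow_le_pow_left (by omega) _))
      have h2 : (n : ℝ) ≤ (((r + 1) * (2 * p) ^ (m + 1) : ℕ) : ℝ) := by exact_mod_cast h1
      refine h2.trans (le_of_eq ?_)
      push_cast
      rw [mul_pow]
      ring
    have hne : (n : ℝ) ^ e ≤ K * (p : ℝ) ^ ((m : ℝ) * (1 - δ) * ((r : ℝ) + 1) + r) := by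
      calc (n : ℝ) ^ e ≤ ((((r : ℝ) + 1) * 2 ^ (m + 1)) * (p : ℝ) ^ (m + 1)) ^ e :=
            Real.rpow_le_rpow (by positivity) hnr he0
        _ = K * ((p : ℝ) ^ (m + 1)) ^ e := by
            rw [Real.mul_rpow (by positivity) (by positivity)]
        _ = K * (p : ℝ) ^ (((m : ℝ) + 1) * e) := by
            rw [← Real.rpow_natCast, ← Real.rpow_mul hx0.le]
            push_cast
            rfl
        _ ≤ K * (p : ℝ) ^ ((m : ℝ) * (1 - δ) * ((r : ℝ) + 1) + r) := by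
            apply mul_le_mul_of_nonneg_left _ hK0.le
            apply Real.rpow_le_rpow_of_exponent_le hx1
            have h5 : ((m : ℝ) + 1) * e = ((m : ℝ) + 1) * ((r : ℝ) + 1) - 1 -
                ((m : ℝ) + 1) * (((r : ℝ) + 1) * δ) := by
              rw [he]
              field_simp
            rw [h5]
            have h6 : 0 ≤ ((r : ℝ) + 1) * δ := by positivity
            nlinarith
    calc c₀ ^ (r + 1) * (1 / 2) ^ r / 2 / K * (n : ℝ) ^ e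
        ≤ c₀ ^ (r + 1) * (1 / 2) ^ r / 2 / K *
          (K * (p : ℝ) ^ ((m : ℝ) * (1 - δ) * ((r : ℝ) + 1) + r)) :=
          mul_le_mul_of_nonneg_left hne (by positivity)
      _ = (c₀ ^ (r + 1) * (1 / 2) ^ r *
          (p : ℝ) ^ ((m : ℝ) * (1 - δ) * ((r : ℝ) + 1) + r)) / 2 := by
          field_simp
      _ ≤ (2 * M) / 2 := by linarith
      _ = M := by ring

end Pool.Agent.H248.HB
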