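import Pool.Agent.H248.HB.ExV
import Pool.Agent.H248.HB.Assemble
import Pool.Agent.H248.HB.AK
import Pool.Agent.H248.HB.NumP

/-!
# The exponent for all `t > (s - 1)!`
-/

set_option autoImplicit false

namespace Pool.Agent.H248.HB

open Pool.Agent.H248.HG

theorem lower_exp (r : ℕ) (hr : 1 ≤ r) (σ : Fin r → ℕ) (hσ : 2 ≤ ∏ i, σ i) (t : ℕ)
    (ht : ((∏ i, σ i) - 1).factorial < t) (η : ℝ) (hη : 0 < η) :
    ∃ c : ℝ, 0 < c ∧ ∃ n₀ : ℕ, ∀ n : ℕ, n₀ ≤ n → ∃ H : Finset (Finset (Fin n)),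
      (∀ e ∈ H, e.card = r + 1) ∧ ¬ HasCopy H (Fin.snoc (α := fun _ => ℕ) σ t : Fin (r + 1) → ℕ) ∧
      c * (n : ℝ) ^ ((r : ℝ) + 1 - 1 / ((∏ i, σ i : ℕ) : ℝ) - η) ≤ H.card := by
  classical
  obtain ⟨s, hs⟩ : ∃ s, s = ∏ i, σ i := ⟨_, rfl⟩
  rw [← hs] at hσ ht ⊢
  obtain ⟨δ, hδ⟩ : ∃ δ : ℝ, δ = min (η / ((r : ℝ) + 1)) (1 / 2) := ⟨_, rfl⟩
  have hr0 : (0 : ℝ) < (r : ℝ) + 1 := by positivity
  have hδ0 : 0 < δ := by rw [hδ]; exact lt_min (by positivity) (by norm_num)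
  have hδ2 : δ ≤ 1 / 2 := by rw [hδ]; exact min_le_right _ _
  have hδη : ((r : ℝ) + 1) * δ ≤ η := by
    have h1 : δ ≤ η / ((r : ℝ) + 1) := by rw [hδ]; exact min_le_left _ _
    rw [le_div_iff₀ hr0] at h1
    linarith
  obtain ⟨c₀, hc₀, hA⟩ := exists_AK r (s - 1) hr (by omega) δ hδ0 (by linarith)
  obtain ⟨c, hc, n₀, hnum⟩ := num_prime r (s - 1) hr (by omega) δ hδ0 hδ2 c₀ hc₀
  refine ⟨c, hc, max n₀ 1, fun n hn => ?_⟩
  obtain ⟨p, hp, hrp, hsz, hM⟩ := hnum n ((le_max_left _ _).trans hn)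
  have hn1 : 1 ≤ n := (le_max_right _ _).trans hn
  have hpf : Fact p.Prime := ⟨hp⟩
  let K := GaloisField p (s - 1)
  let _ : Fintype K := Fintype.ofFinite K
  have hcard : Fintype.card K = p ^ (s - 1) := by
    rw [← Nat.card_eq_fintype_card]
    exact GaloisField.card p (s - 1) (by omega)
  obtain ⟨S, hS1, hS2⟩ := hA p hp hrp K hcard
  obtain ⟨W, _, _, E, hW, hE, hfree⟩ := exists_V r (s - 1) p hr (by omega) hp hrp K hcard S hS2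
  obtain ⟨H, h1, h2, h3⟩ := assemble (n := n) σ hs hσ ht E (by rw [hW]; exact hsz) hfree
  refine ⟨H, h1, h2, ?_⟩
  have h4 := hM S.card E.card hS1 hE
  have hs1 : ((s - 1 : ℕ) : ℝ) + 1 = s := by
    have : s - 1 + 1 = s := by omega
    exact_mod_cast this
  rw [hs1] at h4
  rw [h3]
  refine le_trans ?_ h4
  refine mul_le_mul_of_nonneg_left ?_ hc.le
  refine Real.rpow_le_rpow_of_exponent_le (by exact_mod_cast hn1) ?_
  linarith

end Pool.Agent.H248.HB
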